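import Mathlib

/-!
# Mollification of homogeneous families of operators
-/

open MeasureTheory Convolution Metric Topology

namespace Pool.Agent.Helper64.FlagSphere

set_option linter.unusedSectionVars false

section

/-- An even bump function with integral one, supported in the unit ball. -/
lemma exists_bump (N : ℕ) : ∃ η : EuclideanSpace ℝ (Fin N) → ℝ,
    ContDiff ℝ 1 η ∧ HasCompactSupport η ∧ (∀ x, 1 < ‖x‖ → η x = 0) ∧ (∀ x, 0 ≤ η x) ∧
    (∀ x, η (-x) = η x) ∧ ∫ x, η x = 1 := by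
  let f : ContDiffBump (0 : EuclideanSpace ℝ (Fin N)) := ⟨1 / 2, 1, by norm_num, by norm_num⟩
  refine ⟨f.normed volume, f.contDiff_normed, f.hasCompactSupport_normed, ?_, f.nonneg_normed,
    ?_, f.integral_normed⟩
  · intro x hx
    have : x ∉ Function.support (f.normed volume) := by
      rw [f.support_normed_eq]
      simp only [mem_ball, dist_zero_right, not_lt]
      exact hx.le
    simpa using this
  · intro x
    exact f.normed_neg x

variable {E : Type*} [NormedAddCommGroup E] [InnerProductSpace ℝ E] [FiniteDimensional ℝ E]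
  [MeasurableSpace E] [BorelSpace E]

/-- Growth of a convolution. -/
lemma conv_growth {A B D : Type*} [NormedAddCommGroup A] [NormedSpace ℝ A]
    [NormedAddCommGroup B] [NormedSpace ℝ B] [NormedAddCommGroup D] [NormedSpace ℝ D]
    (L : A →L[ℝ] B →L[ℝ] D) (f : E → A) (hf : Continuous f) (hcf : HasCompactSupport f)
    (hsupp : ∀ x, 1 < ‖x‖ → f x = 0) (g : E → B) {C : ℝ} (hC : 0 ≤ C)
    (hg : ∀ x, ‖g x‖ ≤ C * ‖x‖) (x : E) :
    ‖(f ⋆[L, volume] g) x‖ ≤ (‖L‖ * C * ∫ t, ‖f t‖) * (1 + ‖x‖) := by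
  have hfi : Integrable (fun t => ‖f t‖) :=
    hf.norm.integrable_of_hasCompactSupport hcf.norm
  rw [convolution_def]
  calc ‖∫ t, L (f t) (g (x - t))‖ ≤ ∫ t, ‖L‖ * C * (1 + ‖x‖) * ‖f t‖ := by
        refine norm_integral_le_of_norm_le (hfi.const_mul _) (Filter.Eventually.of_forall fun t => ?_)
        by_cases ht : 1 < ‖t‖
        · rw [hsupp t ht]; simp
        · have h1 : ‖L (f t) (g (x - t))‖ ≤ ‖L‖ * ‖f t‖ * ‖g (x - t)‖ :=
            L.le_opNorm₂ _ _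
          have h2 : ‖g (x - t)‖ ≤ C * (1 + ‖x‖) := by
            refine (hg _).trans (mul_le_mul_of_nonneg_left ?_ hC)
            have := norm_sub_le x t
            push Not at ht
            linarith
          calc ‖L (f t) (g (x - t))‖ ≤ ‖L‖ * ‖f t‖ * ‖g (x - t)‖ := h1
            _ ≤ ‖L‖ * ‖f t‖ * (C * (1 + ‖x‖)) := by gcongr
            _ = ‖L‖ * C * (1 + ‖x‖) * ‖f t‖ := by ring
    _ = (‖L‖ * C * ∫ t, ‖f t‖) * (1 + ‖x‖) := by
        rw [integral_const_mul]; ring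

lemma conv_growth' {A B D : Type*} [NormedAddCommGroup A] [NormedSpace ℝ A]
    [NormedAddCommGroup B] [NormedSpace ℝ B] [NormedAddCommGroup D] [NormedSpace ℝ D]
    (L : A →L[ℝ] B →L[ℝ] D) (f : E → A) (hf : Continuous f) (hcf : HasCompactSupport f)
    (hsupp : ∀ x, 1 < ‖x‖ → f x = 0) (g : E → B) {C : ℝ} (hC : 0 ≤ C)
    (hg : ∀ x, ‖g x‖ ≤ C * ‖x‖) :
    ∃ C' : ℝ, ∀ x, ‖(f ⋆[L, volume] g) x‖ ≤ C' * (1 + ‖x‖) :=
  ⟨_, conv_growth L f hf hcf hsupp g hC hg⟩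

variable {K : Type*} [NormedAddCommGroup K] [InnerProductSpace ℝ K]
  [FiniteDimensional ℝ K]

/-- Homogeneous continuous maps grow at most linearly. -/
lemma homog_bound {A : Type*} [NormedAddCommGroup A] [NormedSpace ℝ A]
    (M0 : E → A) (hc : Continuous M0)
    (hhom : ∀ (t : ℝ) (x), 0 ≤ t → M0 (t • x) = t • M0 x) :
    ∃ C : ℝ, 0 ≤ C ∧ ∀ x, ‖M0 x‖ ≤ C * ‖x‖ := by
  obtain ⟨C, hC⟩ := (isCompact_sphere (0 : E) 1).exists_bound_of_continuousOn hc.continuousOn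
  refine ⟨max C 0, le_max_right _ _, fun x => ?_⟩
  by_cases hx : x = 0
  · subst hx
    have h := hhom 0 0 le_rfl
    rw [zero_smul, zero_smul] at h
    rw [h]; simp
  have hx' : 0 < ‖x‖ := norm_pos_iff.mpr hx
  have h1 : M0 x = ‖x‖ • M0 (‖x‖⁻¹ • x) := by
    rw [← hhom _ _ hx'.le, smul_smul, mul_inv_cancel₀ hx'.ne', one_smul]
  have h2 : ‖M0 (‖x‖⁻¹ • x)‖ ≤ C := by
    apply hC
    rw [mem_sphere_zero_iff_norm, norm_smul, norm_inv, norm_norm, inv_mul_cancel₀ hx'.ne']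
  rw [h1, norm_smul, norm_norm, mul_comm]
  exact mul_le_mul_of_nonneg_right (h2.trans (le_max_left _ _)) hx'.le

/-- Oscillation of a homogeneous continuous map on unit balls. -/
lemma homog_osc {A : Type*} [NormedAddCommGroup A] [NormedSpace ℝ A]
    (M0 : E → A) (hc : Continuous M0)
    (hhom : ∀ (t : ℝ) (x), 0 ≤ t → M0 (t • x) = t • M0 x) {ε : ℝ} (hε : 0 < ε) :
    ∃ C : ℝ, 0 ≤ C ∧ ∀ x y, dist y x ≤ 1 → ‖M0 y - M0 x‖ ≤ ε * ‖x‖ + C := by
  obtain ⟨C, hC0, hC⟩ := homog_bound M0 hc hhom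
  have huc : UniformContinuousOn M0 (closedBall 0 2) :=
    (isCompact_closedBall (0 : E) 2).uniformContinuousOn_of_continuous hc.continuousOn
  rw [Metric.uniformContinuousOn_iff] at huc
  obtain ⟨δ, hδ, hδ'⟩ := huc ε hε
  refine ⟨C * (2 * (δ⁻¹ + 1) + 1), by positivity, fun x y hxy => ?_⟩
  have hyn : ‖y‖ ≤ ‖x‖ + 1 := by
    have := norm_le_norm_add_norm_sub' y x
    rw [dist_eq_norm] at hxy
    linarith
  by_cases hx : ‖x‖ ≤ δ⁻¹ + 1
  · calc ‖M0 y - M0 x‖ ≤ ‖M0 y‖ + ‖M0 x‖ := norm_sub_le _ _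
      _ ≤ C * ‖y‖ + C * ‖x‖ := add_le_add (hC _) (hC _)
      _ ≤ C * (‖x‖ + 1) + C * ‖x‖ := by gcongr
      _ = C * (2 * ‖x‖ + 1) := by ring
      _ ≤ C * (2 * (δ⁻¹ + 1) + 1) := by gcongr
      _ ≤ ε * ‖x‖ + C * (2 * (δ⁻¹ + 1) + 1) := by
        have : 0 ≤ ε * ‖x‖ := by positivity
        linarith
  · push Not at hx
    have hδi : 0 < δ⁻¹ := inv_pos.mpr hδ
    have hx' : 0 < ‖x‖ := by linarith
    have hx1 : 1 < ‖x‖ := by linarith
    have h1 : M0 x = ‖x‖ • M0 (‖x‖⁻¹ • x) := by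
      rw [← hhom _ _ hx'.le, smul_smul, mul_inv_cancel₀ hx'.ne', one_smul]
    have h2 : M0 y = ‖x‖ • M0 (‖x‖⁻¹ • y) := by
      rw [← hhom _ _ hx'.le, smul_smul, mul_inv_cancel₀ hx'.ne', one_smul]
    have hb1 : ‖x‖⁻¹ • x ∈ closedBall (0 : E) 2 := by
      rw [mem_closedBall_zero_iff, norm_smul, norm_inv, norm_norm, inv_mul_cancel₀ hx'.ne']
      norm_num
    have hb2 : ‖x‖⁻¹ • y ∈ closedBall (0 : E) 2 := by
      rw [mem_closedBall_zero_iff, norm_smul, norm_inv, norm_norm, inv_mul_le_iff₀ hx']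
      linarith
    have hd : dist (‖x‖⁻¹ • y) (‖x‖⁻¹ • x) < δ := by
      rw [dist_eq_norm, ← smul_sub, norm_smul, norm_inv, norm_norm, inv_mul_lt_iff₀ hx']
      rw [dist_eq_norm] at hxy
      have : 1 < ‖x‖ * δ := by
        have := mul_lt_mul_of_pos_right (show δ⁻¹ < ‖x‖ by linarith) hδ
        rwa [inv_mul_cancel₀ hδ.ne'] at this
      linarith
    have h3 := hδ' _ hb2 _ hb1 hd
    rw [dist_eq_norm] at h3
    have hne : ‖M0 y - M0 x‖ = ‖x‖ * ‖M0 (‖x‖⁻¹ • y) - M0 (‖x‖⁻¹ • x)‖ := by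
      conv_lhs => rw [h1, h2, ← smul_sub, norm_smul, norm_norm]
    rw [hne]
    have h4 : ‖x‖ * ‖M0 (‖x‖⁻¹ • y) - M0 (‖x‖⁻¹ • x)‖ ≤ ‖x‖ * ε :=
      mul_le_mul_of_nonneg_left h3.le hx'.le
    have h5 : 0 ≤ C * (2 * (δ⁻¹ + 1) + 1) := by positivity
    nlinarith

/-- Lower bound for a homogeneous continuous family of injective operators. -/
lemma homog_lower (M0 : E → (K →L[ℝ] K)) (hc : Continuous M0)
    (hhom : ∀ (t : ℝ) (x), 0 ≤ t → M0 (t • x) = t • M0 x)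
    (hinj : ∀ x, x ≠ 0 → Function.Injective (M0 x)) :
    ∃ c : ℝ, 0 < c ∧ ∀ x k, c * ‖x‖ * ‖k‖ ≤ ‖M0 x k‖ := by
  have hcont : Continuous fun p : E × K => ‖M0 p.1 p.2‖ :=
    ((hc.comp continuous_fst).clm_apply continuous_snd).norm
  obtain ⟨c, hc0, hc1⟩ := ((isCompact_sphere (0 : E) 1).prod
    (isCompact_sphere (0 : K) 1)).exists_forall_le' hcont.continuousOn (a := 0) (by
      rintro ⟨x, k⟩ ⟨hx, hk⟩
      rw [mem_sphere_zero_iff_norm] at hx hk
      have hx0 : x ≠ 0 := by rintro rfl; simp at hx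
      have hk0 : k ≠ 0 := by rintro rfl; simp at hk
      refine norm_pos_iff.mpr fun h => hk0 ?_
      apply hinj x hx0
      rw [h, map_zero])
  refine ⟨c, hc0, fun x k => ?_⟩
  by_cases hx : x = 0
  · subst hx; simp
  by_cases hk : k = 0
  · subst hk; simp
  have hx' : 0 < ‖x‖ := norm_pos_iff.mpr hx
  have hk' : 0 < ‖k‖ := norm_pos_iff.mpr hk
  have h := hc1 (‖x‖⁻¹ • x, ‖k‖⁻¹ • k) ⟨by
    rw [mem_sphere_zero_iff_norm, norm_smul, norm_inv, norm_norm, inv_mul_cancel₀ hx'.ne'], by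
    rw [mem_sphere_zero_iff_norm, norm_smul, norm_inv, norm_norm, inv_mul_cancel₀ hk'.ne']⟩
  have h1 : M0 (‖x‖⁻¹ • x) (‖k‖⁻¹ • k) = (‖x‖⁻¹ * ‖k‖⁻¹) • M0 x k := by
    rw [hhom _ _ (by positivity), map_smul, smul_apply, smul_smul, mul_comm]
  rw [h1, norm_smul, norm_mul, norm_inv, norm_inv, norm_norm, norm_norm] at h
  calc c * ‖x‖ * ‖k‖ ≤ (‖x‖⁻¹ * ‖k‖⁻¹ * ‖M0 x k‖) * ‖x‖ * ‖k‖ := by gcongr
    _ = ‖M0 x k‖ := by field_simp

end

theorem exists_mollification {N : ℕ} {K : Type*} [NormedAddCommGroup K] [InnerProductSpace ℝ K]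
    [FiniteDimensional ℝ K] (M0 : EuclideanSpace ℝ (Fin N) → (K →L[ℝ] K)) (hc : Continuous M0)
    (hhom : ∀ (t : ℝ) (x), 0 ≤ t → M0 (t • x) = t • M0 x)
    (hinj : ∀ x, x ≠ 0 → Function.Injective (M0 x)) :
    ∃ (M : EuclideanSpace ℝ (Fin N) → (K →L[ℝ] K))
      (M' : EuclideanSpace ℝ (Fin N) → EuclideanSpace ℝ (Fin N) →L[ℝ] (K →L[ℝ] K)),
      (∀ x, HasFDerivAt M (M' x) x) ∧ Continuous M' ∧
      (∃ C : ℝ, ∀ x, ‖M x‖ ≤ C * (1 + ‖x‖) ∧ ‖M' x‖ ≤ C * (1 + ‖x‖)) ∧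
      (∃ c > 0, ∃ C : ℝ, ∀ x k, c * ‖x‖ ^ 2 * ‖k‖ ^ 2 - C * ‖k‖ ^ 2 ≤ ‖M x k‖ ^ 2) ∧
      (∀ l : (K →L[ℝ] K) →L[ℝ] ℝ, (∀ x, l (M0 x) = 0) → ∀ x, l (M x) = 0) ∧
      (∀ Λ : (K →L[ℝ] K) →L[ℝ] (K →L[ℝ] K), (∀ x, Λ (M0 (-x)) = - M0 x) →
        ∀ x, Λ (M (-x)) = - M x) := by
  obtain ⟨η, hη1, hηc, hηs, hη0, hηe, hηi⟩ := exists_bump N
  set L : ℝ →L[ℝ] (K →L[ℝ] K) →L[ℝ] (K →L[ℝ] K) := ContinuousLinearMap.lsmul ℝ ℝ with hL
  have hloc : LocallyIntegrable M0 volume := hc.locallyIntegrable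
  have hint : ∀ x, Integrable (fun t => η t • M0 (x - t)) := fun x =>
    (hη1.continuous.smul (hc.comp (continuous_const.sub continuous_id))).integrable_of_hasCompactSupport
      (hηc.smul_right)
  have hM : ∀ x, (η ⋆[L, volume] M0) x = ∫ t, η t • M0 (x - t) := fun x => by
    rw [convolution_def]; rfl
  obtain ⟨C0, hC0, hC0'⟩ := homog_bound M0 hc hhom
  have hder := fun x => hηc.hasFDerivAt_convolution_left L hη1 hloc x
  refine ⟨η ⋆[L, volume] M0, _, hder, ?_, ?_, ?_, ?_, ?_⟩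
  · exact (hηc.fderiv ℝ).continuous_convolution_left _ (hη1.continuous_fderiv one_ne_zero) hloc
  · obtain ⟨C1, hC1⟩ := conv_growth' L η hη1.continuous hηc hηs M0 hC0 hC0'
    have hfs : ∀ x, 1 < ‖x‖ → fderiv ℝ η x = 0 := by
      intro x hx
      have : η =ᶠ[𝓝 x] fun _ => 0 := by
        filter_upwards [(isOpen_lt continuous_const continuous_norm).mem_nhds hx] with y hy
        exact hηs y hy
      rw [this.fderiv_eq]
      simp
    obtain ⟨C2, hC2⟩ := conv_growth' (A := EuclideanSpace ℝ (Fin N) →L[ℝ] ℝ) (B := K →L[ℝ] K)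
      (D := EuclideanSpace ℝ (Fin N) →L[ℝ] (K →L[ℝ] K))
      (L.precompL (EuclideanSpace ℝ (Fin N))) (fderiv ℝ η)
      (hη1.continuous_fderiv one_ne_zero) (hηc.fderiv ℝ) hfs M0 hC0 hC0'
    exact ⟨max C1 C2, fun x => ⟨(hC1 x).trans
      (mul_le_mul_of_nonneg_right (le_max_left _ _) (by positivity)), (hC2 x).trans
      (mul_le_mul_of_nonneg_right (le_max_right _ _) (by positivity))⟩⟩
  · obtain ⟨c, hc0, hc1⟩ := homog_lower M0 hc hhom hinj
    obtain ⟨C, hC, hC'⟩ := homog_osc M0 hc hhom (half_pos hc0)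
    refine ⟨(c / 2) ^ 2 / 2, by positivity, C ^ 2, fun x k => ?_⟩
    have hdist : dist ((η ⋆[L, volume] M0) x) (M0 x) ≤ c / 2 * ‖x‖ + C := by
      have hb : 0 ≤ c / 2 * ‖x‖ + C := by positivity
      rw [dist_eq_norm, hM]
      have h1 : (∫ t, η t • M0 (x - t)) - M0 x = ∫ t, η t • (M0 (x - t) - M0 x) := by
        have hi : Integrable η := integrable_of_integral_eq_one hηi
        have h2 : M0 x = ∫ t, η t • M0 x := by
          rw [integral_smul_const, hηi, one_smul]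
        conv_lhs => rw [h2]
        rw [← integral_sub (hint x) (hi.smul_const _)]
        congr 1
        funext t
        rw [smul_sub]
      rw [h1]
      have hi : Integrable η := integrable_of_integral_eq_one hηi
      calc ‖∫ t, η t • (M0 (x - t) - M0 x)‖ ≤ ∫ t, η t * (c / 2 * ‖x‖ + C) := by
            refine norm_integral_le_of_norm_le (hi.mul_const _)
              (Filter.Eventually.of_forall fun t => ?_)
            rw [norm_smul, Real.norm_of_nonneg (hη0 t)]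
            by_cases ht : 1 < ‖t‖
            · rw [hηs t ht]; simp
            · refine mul_le_mul_of_nonneg_left (hC' x (x - t) ?_) (hη0 t)
              rw [dist_eq_norm]
              push Not at ht
              simpa using ht
        _ = c / 2 * ‖x‖ + C := by rw [integral_mul_const, hηi, one_mul]
    rw [dist_eq_norm] at hdist
    have h1 : ‖M0 x k‖ ≤ ‖(η ⋆[L, volume] M0) x k‖ + (c / 2 * ‖x‖ + C) * ‖k‖ := by
      have h2 : ‖((η ⋆[L, volume] M0) x - M0 x) k‖ ≤ (c / 2 * ‖x‖ + C) * ‖k‖ :=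
        (ContinuousLinearMap.le_opNorm _ _).trans
          (mul_le_mul_of_nonneg_right hdist (norm_nonneg _))
      rw [sub_apply] at h2
      have h3 := norm_le_norm_add_norm_sub ((η ⋆[L, volume] M0) x k) (M0 x k)
      linarith
    have h4 := hc1 x k
    set a := ‖(η ⋆[L, volume] M0) x k‖ with ha
    have ha0 : 0 ≤ a := norm_nonneg _
    have h5 : c / 2 * ‖x‖ * ‖k‖ ≤ a + C * ‖k‖ := by nlinarith
    have h6 : 0 ≤ c / 2 * ‖x‖ * ‖k‖ := by positivity
    have h7 : (c / 2 * ‖x‖ * ‖k‖) ^ 2 ≤ (a + C * ‖k‖) ^ 2 := pow_le_pow_left₀ h6 h5 2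
    nlinarith [sq_nonneg (a - C * ‖k‖)]
  · intro l hl x
    rw [hM, ← ContinuousLinearMap.integral_comp_comm l (hint x)]
    simp [hl]
  · intro Λ hΛ x
    rw [hM, hM, ← ContinuousLinearMap.integral_comp_comm Λ (hint (-x))]
    have h1 : ∀ t, Λ (η t • M0 (-x - t)) = - (η t • M0 (x + t)) := by
      intro t
      rw [map_smul, show -x - t = -(x + t) by abel, hΛ, smul_neg]
    simp only [h1]
    rw [integral_neg, ← integral_neg_eq_self]
    congr 2
    funext t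
    rw [hηe, sub_eq_add_neg]

end Pool.Agent.Helper64.FlagSphere
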