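import Mathlib
import Pool.Agent.Lib.Helper86.FlagSphere.Defs

/-!
# Upper bound construction: isotropic flags from a linear Clifford family
-/

open Pool.Agent.Helper86.FlagSphere
open scoped InnerProductSpace

set_option linter.unusedSectionVars false

namespace Pool.Agent.Helper64.FlagSphere

/-! ### The flag manifold is Hausdorff -/

instance (d : ℕ) : T2Space (FullFlag d) := by
  refine T2Space.of_injective_continuous
    (f := fun (F : FullFlag d) (i : Fin (d + 1)) =>
      ((F.sub i).starProjection :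
        EuclideanSpace ℝ (Fin d) →L[ℝ] EuclideanSpace ℝ (Fin d))) ?_ continuous_induced_dom
  intro F G h
  ext i : 2
  have h' := congrFun h i
  simp only at h'
  rw [← Submodule.range_starProjection (F.sub i), ← Submodule.range_starProjection (G.sub i), h']

section General

variable {E : Type*} [NormedAddCommGroup E] [InnerProductSpace ℝ E] [FiniteDimensional ℝ E]
variable {m : ℕ}

/-- The span of the first `j` vectors. -/
def K (v : Fin m → E) (j : ℕ) : Submodule ℝ E :=
  Submodule.span ℝ (v '' {l | (l : ℕ) < j})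

lemma K_mono (v : Fin m → E) {i j : ℕ} (h : i ≤ j) : K v i ≤ K v j :=
  Submodule.span_mono (Set.image_mono fun _ hl => lt_of_lt_of_le hl h)

/-- orthogonal of norm squared two -/
def Orth2 (v : Fin m → E) : Prop := ∀ i j, ⟪v i, v j⟫_ℝ = if i = j then 2 else 0

lemma mem_K_orth {w : Fin m → E} {j : ℕ} {x : E} :
    x ∈ (K w j)ᗮ ↔ ∀ l : Fin m, (l : ℕ) < j → ⟪w l, x⟫_ℝ = 0 := by
  rw [Submodule.mem_orthogonal]
  constructor
  · intro h l hl
    exact h _ (Submodule.subset_span ⟨l, hl, rfl⟩)
  · intro h u hu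
    induction hu using Submodule.span_induction with
    | mem x hx => obtain ⟨l, hl, rfl⟩ := hx; exact h l hl
    | zero => simp
    | add a b _ _ ha hb => rw [inner_add_left, ha, hb, add_zero]
    | smul c a _ ha => rw [inner_smul_left, ha, mul_zero]

lemma finrank_K {v : Fin m → E} (hv : Orth2 v) {j : ℕ} (hj : j ≤ m) :
    Module.finrank ℝ (K v j) = j := by
  have hli : LinearIndependent ℝ v := by
    refine linearIndependent_of_ne_zero_of_inner_eq_zero (𝕜 := ℝ) ?_ ?_
    · intro i h0
      have := hv i i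
      rw [h0] at this
      simp at this
    · intro i j hij
      rw [hv i j, if_neg hij]
  have key : Set.range (fun l : Fin j => v (Fin.castLE hj l)) = v '' {l | (l : ℕ) < j} := by
    ext x
    constructor
    · rintro ⟨l, rfl⟩
      exact ⟨_, l.2, rfl⟩
    · rintro ⟨l, hl, rfl⟩
      exact ⟨⟨l, hl⟩, rfl⟩
  unfold K
  rw [← key]
  have := finrank_span_eq_card (hli.comp _ (Fin.castLE_injective hj))
  rw [Fintype.card_fin] at this
  exact this

/-- The explicit projection. -/
noncomputable def proj (v : Fin m → E) (j : ℕ) : E →L[ℝ] E :=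
  ∑ l ∈ Finset.univ.filter (fun l : Fin m => (l : ℕ) < j),
    (1 / 2 : ℝ) • (innerSL ℝ (v l)).smulRight (v l)

lemma proj_apply (v : Fin m → E) (j : ℕ) (x : E) :
    proj v j x = ∑ l ∈ Finset.univ.filter (fun l : Fin m => (l : ℕ) < j),
      (1 / 2 : ℝ) • ⟪v l, x⟫_ℝ • v l := by
  simp [proj]

lemma starProjection_K {v : Fin m → E} (hv : Orth2 v) (j : ℕ) :
    (K v j).starProjection = proj v j := by
  ext x
  rw [proj_apply]
  apply Submodule.eq_starProjection_of_mem_orthogonal
  · refine Submodule.sum_mem _ fun l hl => ?_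
    refine Submodule.smul_mem _ _ (Submodule.smul_mem _ _ (Submodule.subset_span ⟨l, ?_, rfl⟩))
    simpa using hl
  · rw [mem_K_orth]
    intro l hl
    rw [inner_sub_right, inner_sum]
    rw [Finset.sum_eq_single l]
    · rw [inner_smul_right, inner_smul_right, hv l l, if_pos rfl]
      ring
    · intro b _ hb
      rw [inner_smul_right, inner_smul_right, hv l b, if_neg (Ne.symm hb)]
      ring
    · intro h
      simp at h
      omega

lemma continuous_proj {Y : Type*} [TopologicalSpace Y] (v : Y → Fin m → E)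
    (hv : ∀ l, Continuous fun y => v y l) (j : ℕ) : Continuous fun y => proj (v y) j := by
  rw [continuous_clm_apply]
  intro x
  simp only [proj_apply]
  refine continuous_finsetSum _ fun l _ => ?_
  exact (((hv l).inner continuous_const).smul (hv l)).const_smul _

end General

/-! ### The flag attached to a pair of families -/

section Flag

variable {d m : ℕ}

/-- The subspaces of the flag. -/
noncomputable def subOf (v w : Fin m → EuclideanSpace ℝ (Fin d)) (i : Fin (d + 1)) :
    Submodule ℝ (EuclideanSpace ℝ (Fin d)) :=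
  if (i : ℕ) ≤ m then K v i else (K w (d - i))ᗮ

/-- The isotropic flag. -/
noncomputable def flagOf (hd : d = 2 * m + 1) (v w : Fin m → EuclideanSpace ℝ (Fin d))
    (hv : Orth2 v) (hw : Orth2 w) (hvw : ∀ i j, ⟪w i, v j⟫_ℝ = 0) : FullFlag d where
  sub := subOf v w
  mono := by
    intro i j hij
    have hij' : (i : ℕ) ≤ j := hij
    unfold subOf
    split_ifs with h1 h2 h2
    · exact K_mono v hij'
    · intro x hx
      rw [mem_K_orth]
      intro l _
      unfold K at hx
      induction hx using Submodule.span_induction with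
      | mem x hx => obtain ⟨l', _, rfl⟩ := hx; exact hvw l l'
      | zero => simp
      | add a b _ _ ha hb => rw [inner_add_right, ha, hb, add_zero]
      | smul c a _ ha => rw [inner_smul_right, ha, mul_zero]
    · omega
    · exact Submodule.orthogonal_le (K_mono w (by omega))
  finrank_sub := by
    intro i
    unfold subOf
    by_cases h1 : (i : ℕ) ≤ m
    · rw [if_pos h1]; exact finrank_K hv h1
    · rw [if_neg h1]
      have hi : (i : ℕ) ≤ d := Nat.lt_succ_iff.mp i.2
      have h := (K w (d - i)).finrank_add_finrank_orthogonal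
      rw [finrank_K hw (by omega), finrank_euclideanSpace, Fintype.card_fin] at h
      omega

/-- Key positivity: what we need for transversality. -/
lemma transverse_flagOf (hd : d = 2 * m + 1) {v w v' w' : Fin m → EuclideanSpace ℝ (Fin d)}
    (hv : Orth2 v) (hw : Orth2 w) (hvw : ∀ i j, ⟪w i, v j⟫_ℝ = 0)
    (hv' : Orth2 v') (hw' : Orth2 w') (hvw' : ∀ i j, ⟪w' i, v' j⟫_ℝ = 0)
    (h1 : ∀ c : Fin m → ℝ, ∑ i, ∑ j, c i * c j * ⟪w' i, v j⟫_ℝ = 0 → c = 0)
    (h2 : ∀ c : Fin m → ℝ, ∑ i, ∑ j, c i * c j * ⟪w i, v' j⟫_ℝ = 0 → c = 0) :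
    (flagOf hd v w hv hw hvw).Transverse (flagOf hd v' w' hv' hw' hvw') := by
  have aux : ∀ (v w' : Fin m → EuclideanSpace ℝ (Fin d)) (j : ℕ), j ≤ m →
      (∀ c : Fin m → ℝ, ∑ i, ∑ j, c i * c j * ⟪w' i, v j⟫_ℝ = 0 → c = 0) →
      K v j ⊓ (K w' j)ᗮ = ⊥ := by
    intro v w' j hj h
    rw [Submodule.eq_bot_iff]
    rintro x ⟨hx1, hx2⟩
    have hx2' : x ∈ (K w' j)ᗮ := hx2
    rw [mem_K_orth] at hx2'
    have hx1' : x ∈ K v j := hx1
    unfold K at hx1'
    rw [Finsupp.mem_span_image_iff_linearCombination] at hx1'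
    obtain ⟨c, hc, hcx⟩ := hx1'
    have hxsum : x = ∑ l, c l • v l := by
      rw [← hcx, Finsupp.linearCombination_apply, Finsupp.sum_fintype]
      intro i; simp
    have hc0 : ∀ l : Fin m, ¬ (l : ℕ) < j → c l = 0 := by
      intro l hl
      by_contra hne
      exact hl (hc (Finsupp.mem_support_iff.mpr hne))
    have : (fun l => c l) = 0 := by
      apply h
      have : ∀ i, ∑ j, c i * c j * ⟪w' i, v j⟫_ℝ = c i * ⟪w' i, x⟫_ℝ := by
        intro i
        rw [hxsum, inner_sum, Finset.mul_sum]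
        refine Finset.sum_congr rfl fun l _ => ?_
        rw [inner_smul_right]; ring
      simp_rw [this]
      refine Finset.sum_eq_zero fun i _ => ?_
      by_cases hi : (i : ℕ) < j
      · rw [hx2' i hi, mul_zero]
      · rw [hc0 i hi, zero_mul]
    rw [hxsum]
    refine Finset.sum_eq_zero fun l _ => ?_
    rw [show c l = 0 from congrFun this l, zero_smul]
  intro i
  change subOf v w i ⊓ subOf v' w' i.rev = ⊥
  have hi : (i : ℕ) ≤ d := Nat.lt_succ_iff.mp i.2
  have hrev : ((i.rev : Fin (d + 1)) : ℕ) = d - i := by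
    rw [Fin.val_rev]; omega
  unfold subOf
  rw [hrev]
  split_ifs with h3 h4 h4
  · omega
  · rw [show d - (d - (i : ℕ)) = i by omega]
    exact aux v w' i h3 h1
  · rw [inf_comm]
    exact aux v' w (d - i) h4 h2
  · omega

end Flag

/-! ### The Clifford family -/

section Clifford

open Matrix

variable {n k : ℕ}

/-- `Φ(y) = y₀ + ∑ yᵢ Jᵢ`. -/
noncomputable def Phi (J : Fin n → Matrix (Fin k) (Fin k) ℝ)
    (y : EuclideanSpace ℝ (Fin (n + 1))) : Matrix (Fin k) (Fin k) ℝ :=
  y 0 • (1 : Matrix (Fin k) (Fin k) ℝ) + ∑ i : Fin n, y i.succ • J i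

lemma Phi_transpose (J : Fin n → Matrix (Fin k) (Fin k) ℝ) (hskew : ∀ i, (J i)ᵀ = -(J i))
    (y : EuclideanSpace ℝ (Fin (n + 1))) :
    (Phi J y)ᵀ = y 0 • (1 : Matrix (Fin k) (Fin k) ℝ) - ∑ i : Fin n, y i.succ • J i := by
  unfold Phi
  rw [transpose_add, transpose_smul, transpose_one, transpose_sum, sub_eq_add_neg,
    ← Finset.sum_neg_distrib]
  congr 1
  refine Finset.sum_congr rfl fun i _ => ?_
  rw [transpose_smul, hskew, smul_neg]

lemma Phi_mul (J : Fin n → Matrix (Fin k) (Fin k) ℝ) (hskew : ∀ i, (J i)ᵀ = -(J i))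
    (hsq : ∀ i, J i * J i = -1) (hanti : ∀ i j, i ≠ j → J i * J j = -(J j * J i))
    (y z : EuclideanSpace ℝ (Fin (n + 1))) :
    (Phi J y)ᵀ * Phi J z + (Phi J z)ᵀ * Phi J y = (2 * ⟪y, z⟫_ℝ) • (1 : Matrix (Fin k) (Fin k) ℝ) := by
  rw [Phi_transpose J hskew, Phi_transpose J hskew]
  unfold Phi
  have hinner : ⟪y, z⟫_ℝ = y 0 * z 0 + ∑ i : Fin n, y i.succ * z i.succ := by
    rw [PiLp.inner_apply, Fin.sum_univ_succ]
    simp [mul_comm]
  set A := ∑ i : Fin n, y i.succ • J i with hA
  set B := ∑ i : Fin n, z i.succ • J i with hB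
  have hAB : A * B + B * A = -(2 * ∑ i : Fin n, y i.succ * z i.succ) • (1 : Matrix (Fin k) (Fin k) ℝ) := by
    rw [hA, hB, Finset.sum_mul_sum, Finset.sum_mul_sum]
    rw [Finset.sum_comm (s := Finset.univ) (t := Finset.univ)
      (f := fun i j => (z (Fin.succ i)) • J i * (y (Fin.succ j)) • J j), ← Finset.sum_add_distrib]
    have : ∀ i : Fin n, (∑ j, y i.succ • J i * z j.succ • J j) +
        (∑ j, z j.succ • J j * y i.succ • J i) = (-(2 * (y i.succ * z i.succ))) • (1 : Matrix (Fin k) (Fin k) ℝ) := by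
      intro i
      rw [← Finset.sum_add_distrib, Finset.sum_eq_single i]
      · rw [smul_mul_smul_comm, smul_mul_smul_comm, hsq, ← add_smul, smul_neg, ← neg_smul]
        congr 1
        ring
      · intro j _ hj
        rw [smul_mul_smul_comm, smul_mul_smul_comm, hanti j i hj, smul_neg, mul_comm (z _) (y _)]
        abel
      · simp
    rw [Finset.sum_congr rfl fun i _ => this i, ← Finset.sum_smul]
    congr 1
    rw [Finset.mul_sum, ← Finset.sum_neg_distrib]
  have expand : (y 0 • (1 : Matrix (Fin k) (Fin k) ℝ) - A) * (z 0 • 1 + B)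
      + (z 0 • 1 - B) * (y 0 • 1 + A)
      = (2 * (y 0 * z 0)) • (1 : Matrix (Fin k) (Fin k) ℝ) - (A * B + B * A) := by
    simp only [sub_mul, mul_add, smul_mul_assoc, one_mul, mul_smul_comm, mul_one, smul_sub,
      smul_smul]
    rw [two_mul, add_smul, mul_comm (z 0) (y 0)]
    abel
  rw [expand, hAB, hinner, neg_smul, sub_neg_eq_add, ← add_smul]
  congr 1
  ring

/-- The quadratic form identity. -/
lemma Phi_dot (J : Fin n → Matrix (Fin k) (Fin k) ℝ) (hskew : ∀ i, (J i)ᵀ = -(J i))
    (hsq : ∀ i, J i * J i = -1) (hanti : ∀ i j, i ≠ j → J i * J j = -(J j * J i))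
    (y z : EuclideanSpace ℝ (Fin (n + 1))) (c c' : Fin k → ℝ) :
    (Phi J y *ᵥ c) ⬝ᵥ (Phi J z *ᵥ c') + (Phi J z *ᵥ c) ⬝ᵥ (Phi J y *ᵥ c')
      = 2 * ⟪y, z⟫_ℝ * (c ⬝ᵥ c') := by
  have h := Phi_mul J hskew hsq hanti y z
  have e1 : ∀ A B : Matrix (Fin k) (Fin k) ℝ, (A *ᵥ c) ⬝ᵥ (B *ᵥ c') = c ⬝ᵥ ((Aᵀ * B) *ᵥ c') := by
    intro A B
    rw [← Matrix.mulVec_mulVec, Matrix.dotProduct_mulVec c, Matrix.vecMul_transpose]
  rw [e1, e1, ← dotProduct_add, ← Matrix.add_mulVec, h, Matrix.smul_mulVec, Matrix.one_mulVec,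
    dotProduct_smul, smul_eq_mul]

/-- The vectors `(Φ(y) e_l, ε e'_l)`. -/
noncomputable def vec {m : ℕ} (J : Fin n → Matrix (Fin (m + 1)) (Fin (m + 1)) ℝ) (ε : ℝ)
    (y : EuclideanSpace ℝ (Fin (n + 1))) (l : Fin m) :
    EuclideanSpace ℝ (Fin ((m + 1) + m)) :=
  WithLp.toLp 2 (Fin.append (Phi J y *ᵥ Pi.single l.castSucc 1) (Pi.single l ε))

lemma inner_vec {m : ℕ} (J : Fin n → Matrix (Fin (m + 1)) (Fin (m + 1)) ℝ) (ε ε' : ℝ)
    (y z : EuclideanSpace ℝ (Fin (n + 1))) (l l' : Fin m) :
    ⟪vec J ε y l, vec J ε' z l'⟫_ℝ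
      = (Phi J y *ᵥ Pi.single l.castSucc 1) ⬝ᵥ (Phi J z *ᵥ Pi.single l'.castSucc 1)
        + if l = l' then ε * ε' else 0 := by
  rw [PiLp.inner_apply, Fin.sum_univ_add]
  congr 1
  · simp only [vec, Fin.append_left, dotProduct]
    refine Finset.sum_congr rfl fun i _ => ?_
    simp [mul_comm]
  · simp only [vec, Fin.append_right]
    by_cases h : l = l'
    · subst h
      rw [Finset.sum_eq_single l]
      · simp [mul_comm]
      · intro b _ hb
        simp [hb]
      · simp
    · rw [if_neg h]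
      refine Finset.sum_eq_zero fun i _ => ?_
      by_cases hi : i = l
      · subst hi
        simp [h]
      · simp [hi]

lemma Phi_dot_single {m : ℕ} (J : Fin n → Matrix (Fin (m + 1)) (Fin (m + 1)) ℝ)
    (hskew : ∀ i, (J i)ᵀ = -(J i)) (hsq : ∀ i, J i * J i = -1)
    (hanti : ∀ i j, i ≠ j → J i * J j = -(J j * J i))
    (y : EuclideanSpace ℝ (Fin (n + 1))) (hy : ‖y‖ = 1) (l l' : Fin m) :
    (Phi J y *ᵥ Pi.single l.castSucc 1) ⬝ᵥ (Phi J y *ᵥ Pi.single l'.castSucc 1)
      = if l = l' then 1 else 0 := by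
  have h := Phi_dot J hskew hsq hanti y y (Pi.single l.castSucc 1) (Pi.single l'.castSucc 1)
  rw [real_inner_self_eq_norm_sq, hy] at h
  have h2 : (Pi.single l.castSucc 1 : Fin (m + 1) → ℝ) ⬝ᵥ Pi.single l'.castSucc 1
      = if l = l' then 1 else 0 := by
    rw [dotProduct_single_one]
    by_cases hl : l = l'
    · subst hl; simp
    · rw [if_neg hl, Pi.single_eq_of_ne]
      intro hh
      exact hl (Fin.castSucc_injective _ hh).symm
  rw [h2] at h
  linarith

lemma orth2_vec {m : ℕ} (J : Fin n → Matrix (Fin (m + 1)) (Fin (m + 1)) ℝ)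
    (hskew : ∀ i, (J i)ᵀ = -(J i)) (hsq : ∀ i, J i * J i = -1)
    (hanti : ∀ i j, i ≠ j → J i * J j = -(J j * J i)) (ε : ℝ) (hε : ε * ε = 1)
    (y : EuclideanSpace ℝ (Fin (n + 1))) (hy : ‖y‖ = 1) : Orth2 (vec J ε y) := by
  intro i j
  rw [inner_vec, Phi_dot_single J hskew hsq hanti y hy]
  split_ifs <;> linarith

lemma vec_orth {m : ℕ} (J : Fin n → Matrix (Fin (m + 1)) (Fin (m + 1)) ℝ)
    (hskew : ∀ i, (J i)ᵀ = -(J i)) (hsq : ∀ i, J i * J i = -1)
    (hanti : ∀ i j, i ≠ j → J i * J j = -(J j * J i))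
    (y : EuclideanSpace ℝ (Fin (n + 1))) (hy : ‖y‖ = 1) (i j : Fin m) :
    ⟪vec J (-1) y i, vec J 1 y j⟫_ℝ = 0 := by
  rw [inner_vec, Phi_dot_single J hskew hsq hanti y hy]
  split_ifs <;> norm_num

lemma vec_transverse {m : ℕ} (J : Fin n → Matrix (Fin (m + 1)) (Fin (m + 1)) ℝ)
    (hskew : ∀ i, (J i)ᵀ = -(J i)) (hsq : ∀ i, J i * J i = -1)
    (hanti : ∀ i j, i ≠ j → J i * J j = -(J j * J i))
    (y z : EuclideanSpace ℝ (Fin (n + 1))) (hy : ‖y‖ = 1) (hz : ‖z‖ = 1) (hyz : y ≠ z)
    (c : Fin m → ℝ)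
    (hc : ∑ i, ∑ j, c i * c j * ⟪vec J (-1) z i, vec J 1 y j⟫_ℝ = 0) : c = 0 := by
  have hlt : ⟪y, z⟫_ℝ < 1 := by
    exact (inner_lt_one_iff_real_of_norm_eq_one hy hz).mpr hyz
  set u : Fin (m + 1) → ℝ := ∑ i : Fin m, c i • Pi.single i.castSucc 1 with hu
  have e1 : ∑ i, ∑ j, c i * c j * ⟪vec J (-1) z i, vec J 1 y j⟫_ℝ
      = (Phi J z *ᵥ u) ⬝ᵥ (Phi J y *ᵥ u) - ∑ i, c i * c i := by
    rw [hu, Matrix.mulVec_sum, Matrix.mulVec_sum, sum_dotProduct]
    simp_rw [dotProduct_sum]
    rw [← Finset.sum_sub_distrib]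
    refine Finset.sum_congr rfl fun i _ => ?_
    rw [show c i * c i = ∑ j, if i = j then c i * c j else 0 by simp, ← Finset.sum_sub_distrib]
    refine Finset.sum_congr rfl fun j _ => ?_
    rw [inner_vec, Matrix.mulVec_smul, Matrix.mulVec_smul, smul_dotProduct, dotProduct_smul,
      smul_eq_mul, smul_eq_mul]
    split_ifs with h
    · subst h; ring
    · ring
  have e2 : (Phi J z *ᵥ u) ⬝ᵥ (Phi J y *ᵥ u) = ⟪y, z⟫_ℝ * (u ⬝ᵥ u) := by
    have h := Phi_dot J hskew hsq hanti y z u u
    rw [dotProduct_comm (Phi J y *ᵥ u)] at h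
    linarith
  have e3 : u ⬝ᵥ u = ∑ i, c i * c i := by
    rw [hu, sum_dotProduct]
    refine Finset.sum_congr rfl fun i _ => ?_
    rw [dotProduct_sum, Finset.sum_eq_single i]
    · simp
    · intro b _ hb
      rw [smul_dotProduct, dotProduct_smul, single_one_dotProduct, Pi.single_eq_of_ne]
      · simp
      · intro hh
        exact hb (Fin.castSucc_injective _ hh).symm
    · simp
  rw [e1, e2, e3] at hc
  have hs : ∑ i, c i * c i = 0 := by
    have : (1 - ⟪y, z⟫_ℝ) * ∑ i, c i * c i = 0 := by linarith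
    rcases mul_eq_zero.mp this with h | h
    · linarith
    · exact h
  rw [Finset.sum_eq_zero_iff_of_nonneg (fun i _ => mul_self_nonneg _)] at hs
  funext i
  exact mul_self_eq_zero.mp (hs i (Finset.mem_univ i))

lemma continuous_vec {m : ℕ} (J : Fin n → Matrix (Fin (m + 1)) (Fin (m + 1)) ℝ) (ε : ℝ)
    (l : Fin m) : Continuous fun y => vec J ε y l := by
  unfold vec
  refine (PiLp.continuous_toLp 2 _).comp ?_
  rw [continuous_pi_iff]
  intro i
  induction i using Fin.addCases with
  | left i =>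
    simp only [Fin.append_left]
    have : Continuous fun y : EuclideanSpace ℝ (Fin (n + 1)) => Phi J y := by
      unfold Phi
      have hc : ∀ j : Fin (n + 1), Continuous fun y : EuclideanSpace ℝ (Fin (n + 1)) => y j :=
        fun j => by fun_prop
      exact Continuous.add (Continuous.smul (hc 0) continuous_const)
        (continuous_finsetSum _ fun i _ => Continuous.smul (hc i.succ) continuous_const)
    exact (continuous_apply i).comp (this.matrix_mulVec continuous_const)
  | right i =>
    simp only [Fin.append_right]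
    exact continuous_const

end Clifford

/-! ### Main theorem -/

theorem hasTransverseSphere_of_clifford {n k : ℕ} (hn : 1 ≤ n) (hk : 1 ≤ k)
    (J : Fin n → Matrix (Fin k) (Fin k) ℝ) (hskew : ∀ i, (J i).transpose = -(J i))
    (hsq : ∀ i, J i * J i = -1) (hanti : ∀ i j, i ≠ j → J i * J j = -(J j * J i)) :
    HasTransverseSphere n (2 * k - 1) := by
  obtain ⟨m, rfl⟩ : ∃ m, k = m + 1 := ⟨k - 1, by omega⟩
  have hm : 1 ≤ m := by
    by_contra hm0
    obtain rfl : m = 0 := by omega
    have h1 := congrFun (congrFun (hskew ⟨0, hn⟩) 0) 0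
    have h2 := congrFun (congrFun (hsq ⟨0, hn⟩) 0) 0
    simp [Matrix.mul_apply] at h1 h2
    nlinarith [mul_self_nonneg (J ⟨0, hn⟩ 0 0)]
  rw [show 2 * (m + 1) - 1 = (m + 1) + m by omega]
  have hd : (m + 1) + m = 2 * m + 1 := by omega
  let S := Metric.sphere (0 : EuclideanSpace ℝ (Fin (n + 1))) 1
  have hS : ∀ y : S, ‖(y : EuclideanSpace ℝ (Fin (n + 1)))‖ = 1 := fun y => by
    exact mem_sphere_zero_iff_norm.mp y.2
  let f : S → FullFlag ((m + 1) + m) := fun y =>
    flagOf hd (vec J 1 y) (vec J (-1) y)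
      (orth2_vec J hskew hsq hanti 1 (by norm_num) y (hS y))
      (orth2_vec J hskew hsq hanti (-1) (by norm_num) y (hS y))
      (vec_orth J hskew hsq hanti y (hS y))
  have hftr : ∀ y z : S, y ≠ z → (f y).Transverse (f z) := by
    intro y z hyz
    have hne : (y : EuclideanSpace ℝ (Fin (n + 1))) ≠ z := fun h => hyz (Subtype.ext h)
    refine transverse_flagOf hd _ _ _ _ _ _ ?_ ?_
    · intro c hc
      exact vec_transverse J hskew hsq hanti y z (hS y) (hS z) hne c hc
    · intro c hc
      exact vec_transverse J hskew hsq hanti z y (hS z) (hS y) hne.symm c hc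
  have hnt : ∀ F : FullFlag ((m + 1) + m), ¬ F.Transverse F := by
    intro F hF
    have h1 := hF ⟨1, by omega⟩
    have hle : F.sub ⟨1, by omega⟩ ≤ F.sub (Fin.rev ⟨1, by omega⟩) := by
      apply F.mono
      rw [Fin.le_def, Fin.val_rev]
      simp only
      omega
    rw [inf_eq_left.mpr hle] at h1
    have h2 := F.finrank_sub ⟨1, by omega⟩
    rw [h1] at h2
    simp at h2
  have hinj : Function.Injective f := by
    intro y z h
    by_contra hne
    have := hftr y z hne
    rw [← h] at this
    exact hnt _ this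
  have hcont : Continuous f := by
    rw [continuous_induced_rng, continuous_pi_iff]
    intro i
    change Continuous fun y : S => ((subOf (vec J 1 y) (vec J (-1) y) i).starProjection)
    have hval : Continuous (Subtype.val : S → EuclideanSpace ℝ (Fin (n + 1))) :=
      continuous_subtype_val
    by_cases hi : (i : ℕ) ≤ m
    · have : (fun y : S => ((subOf (vec J 1 y) (vec J (-1) y) i).starProjection))
          = fun y : S => proj (vec J 1 (y : EuclideanSpace ℝ (Fin (n + 1)))) i := by
        funext y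
        rw [← starProjection_K (orth2_vec J hskew hsq hanti 1 (by norm_num) y (hS y))]
        simp only [subOf, if_pos hi]
      rw [this]
      exact (continuous_proj (fun y => vec J 1 y) (fun l => continuous_vec J 1 l) i).comp hval
    · have : (fun y : S => ((subOf (vec J 1 y) (vec J (-1) y) i).starProjection))
          = fun y : S => ContinuousLinearMap.id ℝ _ -
            proj (vec J (-1) (y : EuclideanSpace ℝ (Fin (n + 1)))) ((m + 1) + m - i) := by
        funext y
        rw [← starProjection_K (orth2_vec J hskew hsq hanti (-1) (by norm_num) y (hS y))]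
        simp only [subOf, if_neg hi]
        rw [Submodule.starProjection_orthogonal]
      rw [this]
      exact continuous_const.sub
        ((continuous_proj (fun y => vec J (-1) y) (fun l => continuous_vec J (-1) l) _).comp hval)
  have : CompactSpace S := isCompact_iff_compactSpace.mp (isCompact_sphere _ _)
  have hemb : Topology.IsEmbedding f := (hcont.isClosedEmbedding hinj).isEmbedding
  refine ⟨Set.range f, ?_, ⟨hemb.toHomeomorph.symm⟩⟩
  rintro _ ⟨y, rfl⟩ _ ⟨z, rfl⟩ hne
  exact hftr y z fun h => hne (by rw [h])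

/-! ### The circle in the projective line -/

/-- The projection attached to a point of the circle, as a matrix. -/
noncomputable def lineMat (y : EuclideanSpace ℝ (Fin 2)) : Matrix (Fin 2) (Fin 2) ℝ :=
  !![(1 + y 0) / 2, y 1 / 2; y 1 / 2, (1 - y 0) / 2]

/-- The projection attached to a point of the circle. -/
noncomputable def lineProj (y : EuclideanSpace ℝ (Fin 2)) :
    EuclideanSpace ℝ (Fin 2) →L[ℝ] EuclideanSpace ℝ (Fin 2) :=
  LinearMap.toContinuousLinearMap (Matrix.toEuclideanLin (lineMat y))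

lemma lineProj_zero (y x : EuclideanSpace ℝ (Fin 2)) :
    lineProj y x 0 = ((1 + y 0) * x 0 + y 1 * x 1) / 2 := by
  simp [lineProj, lineMat, Matrix.toLpLin_apply, dotProduct, Fin.sum_univ_two]
  ring

lemma lineProj_one (y x : EuclideanSpace ℝ (Fin 2)) :
    lineProj y x 1 = (y 1 * x 0 + (1 - y 0) * x 1) / 2 := by
  simp [lineProj, lineMat, Matrix.toLpLin_apply, dotProduct, Fin.sum_univ_two]
  ring

/-- The line attached to a point of the circle. -/
noncomputable def line (y : EuclideanSpace ℝ (Fin 2)) : Submodule ℝ (EuclideanSpace ℝ (Fin 2)) :=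
  LinearMap.ker (ContinuousLinearMap.id ℝ (EuclideanSpace ℝ (Fin 2)) - lineProj y).toLinearMap

lemma mem_line {y x : EuclideanSpace ℝ (Fin 2)} :
    x ∈ line y ↔ (1 - y 0) * x 0 = y 1 * x 1 ∧ (1 + y 0) * x 1 = y 1 * x 0 := by
  have : x ∈ line y ↔ lineProj y x = x := by
    unfold line
    rw [LinearMap.mem_ker]
    change x - lineProj y x = 0 ↔ _
    rw [sub_eq_zero, eq_comm]
  rw [this]
  constructor
  · intro h
    have h0 := lineProj_zero y x
    have h1 := lineProj_one y x
    rw [h] at h0 h1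
    constructor <;> linarith
  · rintro ⟨h0, h1⟩
    ext i
    fin_cases i
    · simp only [Fin.zero_eta]
      rw [lineProj_zero]; linarith
    · simp only [Fin.mk_one]
      rw [lineProj_one]; linarith

lemma circle_eq {y : EuclideanSpace ℝ (Fin 2)} (hy : ‖y‖ = 1) : y 0 * y 0 + y 1 * y 1 = 1 := by
  have h := EuclideanSpace.real_norm_sq_eq y
  rw [hy, Fin.sum_univ_two] at h
  nlinarith

lemma lineProj_mem {y : EuclideanSpace ℝ (Fin 2)} (hy : ‖y‖ = 1)
    (x : EuclideanSpace ℝ (Fin 2)) : lineProj y x ∈ line y := by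
  have h := circle_eq hy
  rw [mem_line, lineProj_zero, lineProj_one]
  constructor
  · linear_combination (-(x 0) / 2) * h
  · linear_combination (-(x 1) / 2) * h

lemma sub_lineProj_mem {y : EuclideanSpace ℝ (Fin 2)}
    (x : EuclideanSpace ℝ (Fin 2)) : x - lineProj y x ∈ (line y)ᗮ := by
  rw [Submodule.mem_orthogonal]
  intro u hu
  rw [mem_line] at hu
  obtain ⟨h0, h1⟩ := hu
  rw [PiLp.inner_apply, Fin.sum_univ_two]
  simp only [PiLp.sub_apply, lineProj_zero, lineProj_one, RCLike.inner_apply, conj_trivial]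
  linear_combination (x 0 / 2) * h0 + (x 1 / 2) * h1

lemma starProjection_line {y : EuclideanSpace ℝ (Fin 2)} (hy : ‖y‖ = 1) :
    (line y).starProjection = lineProj y := by
  ext1 x
  exact Submodule.eq_starProjection_of_mem_orthogonal (lineProj_mem hy x) (sub_lineProj_mem x)

lemma finrank_line {y : EuclideanSpace ℝ (Fin 2)} (hy : ‖y‖ = 1) :
    Module.finrank ℝ (line y) = 1 := by
  have h := (line y).finrank_add_finrank_orthogonal
  rw [finrank_euclideanSpace, Fintype.card_fin] at h
  have hne1 : line y ≠ ⊥ := by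
    intro hb
    have h0 := lineProj_mem hy (EuclideanSpace.single 0 1)
    have h1 := lineProj_mem hy (EuclideanSpace.single 1 1)
    rw [hb, Submodule.mem_bot] at h0 h1
    have a0 := lineProj_zero y (EuclideanSpace.single 0 1)
    have a1 := lineProj_one y (EuclideanSpace.single 1 1)
    rw [h0] at a0
    rw [h1] at a1
    simp at a0 a1
    linarith
  have hne2 : (line y)ᗮ ≠ ⊥ := by
    intro hb
    have h0 := sub_lineProj_mem (y := y) (EuclideanSpace.single 0 1)
    have h1 := sub_lineProj_mem (y := y) (EuclideanSpace.single 1 1)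
    rw [hb, Submodule.mem_bot, sub_eq_zero] at h0 h1
    have a0 := lineProj_zero y (EuclideanSpace.single 0 1)
    have a1 := lineProj_one y (EuclideanSpace.single 1 1)
    rw [← h0] at a0
    rw [← h1] at a1
    simp at a0 a1
    linarith
  have p1 : 0 < Module.finrank ℝ (line y) := by
    rw [Module.finrank_pos_iff]
    exact Submodule.nontrivial_iff_ne_bot.mpr hne1
  have p2 : 0 < Module.finrank ℝ (line y)ᗮ := by
    rw [Module.finrank_pos_iff]
    exact Submodule.nontrivial_iff_ne_bot.mpr hne2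
  omega

lemma line_inf {y z : EuclideanSpace ℝ (Fin 2)} (hyz : y ≠ z) : line y ⊓ line z = ⊥ := by
  rw [Submodule.eq_bot_iff]
  rintro x ⟨hx1, hx2⟩
  have hx1' := mem_line.mp hx1
  have hx2' := mem_line.mp hx2
  obtain ⟨a1, a2⟩ := hx1'
  obtain ⟨b1, b2⟩ := hx2'
  by_contra hx
  have hpos : 0 < x 0 * x 0 + x 1 * x 1 := by
    rcases eq_or_ne (x 0) 0 with h0 | h0
    · rcases eq_or_ne (x 1) 0 with h1 | h1
      · exact absurd (by ext i; fin_cases i <;> simp [h0, h1]) hx
      · have := mul_self_pos.mpr h1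
        nlinarith [mul_self_nonneg (x 0)]
    · have := mul_self_pos.mpr h0
      nlinarith [mul_self_nonneg (x 1)]
  apply hyz
  have e0 : y 0 = z 0 := by
    have h1 : y 0 * (x 0 * x 0 + x 1 * x 1) = x 0 * x 0 - x 1 * x 1 := by
      linear_combination (-(x 0)) * a1 + (x 1) * a2
    have h2 : z 0 * (x 0 * x 0 + x 1 * x 1) = x 0 * x 0 - x 1 * x 1 := by
      linear_combination (-(x 0)) * b1 + (x 1) * b2
    exact mul_right_cancel₀ hpos.ne' (h1.trans h2.symm)
  have e1 : y 1 = z 1 := by
    have h1 : y 1 * (x 0 * x 0 + x 1 * x 1) = 2 * x 0 * x 1 := by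
      linear_combination (-(x 1)) * a1 - (x 0) * a2
    have h2 : z 1 * (x 0 * x 0 + x 1 * x 1) = 2 * x 0 * x 1 := by
      linear_combination (-(x 1)) * b1 - (x 0) * b2
    exact mul_right_cancel₀ hpos.ne' (h1.trans h2.symm)
  ext i
  fin_cases i
  · exact e0
  · exact e1

/-- The full flag of a point of the circle. -/
noncomputable def lineFlag (y : EuclideanSpace ℝ (Fin 2)) (hy : ‖y‖ = 1) : FullFlag 2 where
  sub := ![⊥, line y, ⊤]
  mono := by
    intro i j hij
    fin_cases i <;> fin_cases j <;> simp at hij ⊢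
  finrank_sub := by
    intro i
    fin_cases i
    · exact finrank_bot ℝ (EuclideanSpace ℝ (Fin 2))
    · exact finrank_line hy
    · change Module.finrank ℝ (⊤ : Submodule ℝ (EuclideanSpace ℝ (Fin 2))) = 2
      rw [finrank_top, finrank_euclideanSpace, Fintype.card_fin]

theorem hasTransverseSphere_one_two : HasTransverseSphere 1 2 := by
  let S := Metric.sphere (0 : EuclideanSpace ℝ (Fin (1 + 1))) 1
  have hS : ∀ y : S, ‖(y : EuclideanSpace ℝ (Fin 2))‖ = 1 := fun y =>
    mem_sphere_zero_iff_norm.mp y.2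
  let f : S → FullFlag 2 := fun y => lineFlag y (hS y)
  have hftr : ∀ y z : S, y ≠ z → (f y).Transverse (f z) := by
    intro y z hyz
    have hne : (y : EuclideanSpace ℝ (Fin 2)) ≠ z := fun h => hyz (Subtype.ext h)
    intro i
    fin_cases i
    · simp [f, lineFlag]
    · simpa [f, lineFlag, Fin.rev] using line_inf hne
    · simp [f, lineFlag, Fin.rev]
  have hinj : Function.Injective f := by
    intro y z h
    by_contra hne
    have h1 := hftr y z hne 1
    rw [← h] at h1
    have h2 : (f y).sub 1 ⊓ (f y).sub (Fin.rev 1) = (f y).sub 1 := by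
      simp [f, lineFlag, Fin.rev]
    rw [h2] at h1
    have h3 := (f y).finrank_sub 1
    rw [h1] at h3
    simp at h3
  have hcont : Continuous f := by
    rw [continuous_induced_rng, continuous_pi_iff]
    intro i
    fin_cases i
    · exact (continuous_const : Continuous fun _ : S =>
        ((⊥ : Submodule ℝ (EuclideanSpace ℝ (Fin 2))).starProjection))
    · have : (fun y : S => ((f y).sub 1).starProjection)
          = fun y : S => lineProj (y : EuclideanSpace ℝ (Fin 2)) := by
        funext y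
        exact starProjection_line (hS y)
      change Continuous (fun y : S => ((f y).sub 1).starProjection)
      rw [this, continuous_clm_apply]
      intro x
      suffices h : Continuous fun y : S => (fun i : Fin 2 =>
          lineProj (y : EuclideanSpace ℝ (Fin 2)) x i) from
        (PiLp.continuous_toLp 2 (fun _ : Fin 2 => ℝ)).comp h
      rw [continuous_pi_iff]
      intro i
      have hc : ∀ j : Fin 2, Continuous fun y : S => (y : EuclideanSpace ℝ (Fin 2)) j := fun j =>
        (by fun_prop : Continuous fun y : EuclideanSpace ℝ (Fin 2) => y j).comp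
          continuous_subtype_val
      fin_cases i
      · change Continuous fun y : S => lineProj (y : EuclideanSpace ℝ (Fin 2)) x 0
        simp only [lineProj_zero]
        exact (((continuous_const.add (hc 0)).mul continuous_const).add
          ((hc 1).mul continuous_const)).div_const _
      · change Continuous fun y : S => lineProj (y : EuclideanSpace ℝ (Fin 2)) x 1
        simp only [lineProj_one]
        exact (((hc 1).mul continuous_const).add
          ((continuous_const.sub (hc 0)).mul continuous_const)).div_const _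
    · exact (continuous_const : Continuous fun _ : S =>
        ((⊤ : Submodule ℝ (EuclideanSpace ℝ (Fin 2))).starProjection))
  have : CompactSpace S := isCompact_iff_compactSpace.mp (isCompact_sphere _ _)
  have hemb : Topology.IsEmbedding f := (hcont.isClosedEmbedding hinj).isEmbedding
  refine ⟨Set.range f, ?_, ⟨hemb.toHomeomorph.symm⟩⟩
  rintro _ ⟨y, rfl⟩ _ ⟨z, rfl⟩ hne
  exact hftr y z fun h => hne (by rw [h])

end Pool.Agent.Helper64.FlagSphere
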